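import Pool.Agent.Q278.WR8

set_option autoImplicit false

/-! The sum with factor `[8k+1]` modulo `[n]` and `[n] Φ_n(q)²`. -/

namespace Pool.Agent.Results.MP_659547_nt.Full

open Finset Polynomial Q278.Cyc Q278.Loc Q278.Unit Q278.Blk Q278.WR

/-- `[m] = (1 - q^m) / (1 - q)`, with `q = RatFunc.X`. -/
noncomputable def qint (m : ℕ) : RatFunc ℚ := (1 - RatFunc.X ^ m) / (1 - RatFunc.X)

/-- `(x; y)_k = (1 - x)(1 - x y) ⋯ (1 - x y^(k-1))`. -/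
noncomputable def qp (x y : RatFunc ℚ) (k : ℕ) : RatFunc ℚ := ∏ l ∈ range k, (1 - x * y ^ l)

/-- `A_k(q) = (q;q⁴)_k⁶ / (q⁴;q⁴)_k⁶ · (q²;q²)_{2k} / (q;q²)_{2k}`. -/
noncomputable def Ak (k : ℕ) : RatFunc ℚ :=
  qp RatFunc.X (RatFunc.X ^ 4) k ^ 6 / qp (RatFunc.X ^ 4) (RatFunc.X ^ 4) k ^ 6 *
    (qp (RatFunc.X ^ 2) (RatFunc.X ^ 2) (2 * k) / qp RatFunc.X (RatFunc.X ^ 2) (2 * k))

/-- The sum `S_n(q) = ∑_{k<n} q^(4k) [8k+1] A_k(q)`. -/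
noncomputable def S (n : ℕ) : RatFunc ℚ :=
  ∑ k ∈ range n, RatFunc.X ^ (4 * k) * qint (8 * k + 1) * Ak k

/-- The polynomial `[n] = 1 + q + ⋯ + q^(n-1)`. -/
noncomputable def qintP (n : ℕ) : ℚ[X] := ∑ i ∈ range n, X ^ i

/-- `R ≡ 0 (mod P)`: the polynomial `P` divides the numerator of the reduced fraction (and is
coprime to its denominator). -/
def ModZero (P : ℚ[X]) (R : RatFunc ℚ) : Prop :=
  P ∣ RatFunc.num R ∧ IsCoprime P (RatFunc.denom R)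

theorem S_eq (n : ℕ) : (1 - q) * S n = ∑ k ∈ range n, Bk 1 1 0 k := by
  unfold S
  rw [mul_sum]
  apply sum_congr rfl
  intro k _
  have h1 : (1 : RatFunc ℚ) - q ≠ 0 := by
    have := one_sub_q_ne one_pos
    rwa [pow_one] at this
  have e1 : qp RatFunc.X (RatFunc.X ^ 4) k = A 1 k := by
    rw [← A_eq, zpow_one]; rfl
  have e2 : qp (RatFunc.X ^ 4) (RatFunc.X ^ 4) k = A 4 k := by
    rw [← A_eq]; rfl
  have e3 : qp (RatFunc.X ^ 2) (RatFunc.X ^ 2) (2 * k) = A 2 k * A 4 k := by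
    have := A_eq2 2 k
    rw [show (2 : ℤ) + 2 = 4 by norm_num] at this
    rw [← this]; rfl
  have e4 : qp RatFunc.X (RatFunc.X ^ 2) (2 * k) = A 1 k * A 3 k := by
    have := A_eq2 1 k
    rw [show (1 : ℤ) + 2 = 3 by norm_num, zpow_one] at this
    rw [← this]; rfl
  have e5 : (1 - q) * qint (8 * k + 1) = 1 - q ^ (8 * k + 1) := by
    unfold qint
    exact mul_div_cancel₀ _ h1
  have e6 : (q : RatFunc ℚ) ^ ((1 : ℤ) + 2 * 0 + 8 * (k : ℤ)) = q ^ (8 * k + 1) := by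
    rw [← zpow_natCast q (8 * k + 1)]
    congr 1; push_cast; ring
  have n1 : A 1 k ≠ 0 := A_ne (fun l => by omega) k
  have n3 : A 3 k ≠ 0 := A_ne (fun l => by omega) k
  have n4 : A 4 k ≠ 0 := A_ne (fun l => by omega) k
  have e7 : (RatFunc.X : RatFunc ℚ) ^ (4 * k) = ((q ^ 4) ^ 1) ^ k := by
    rw [pow_one, ← pow_mul]
  unfold Ak Bk F
  rw [e1, e2, e3, e4, e6, e7]
  have e8 : (1 - q) * (((q ^ 4) ^ 1) ^ k * qint (8 * k + 1) *
      (A 1 k ^ 6 / A 4 k ^ 6 * (A 2 k * A 4 k / (A 1 k * A 3 k)))) =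
      ((1 - q) * qint (8 * k + 1)) * (((q ^ 4) ^ 1) ^ k *
      (A 1 k ^ 6 / A 4 k ^ 6 * (A 2 k * A 4 k / (A 1 k * A 3 k)))) := by ring
  rw [e8, e5]
  norm_num
  field_simp

/-- For every odd `n`: `S_n ≡ 0` modulo `[n]` if `n ≡ 1 (mod 4)`, and modulo `[n] Φ_n(q)²` if
`n ≡ 3 (mod 4)`. -/
theorem result (n : ℕ) (hn : Odd n) :
    (n % 4 = 1 → ModZero (qintP n) (S n)) ∧
    (n % 4 = 3 → ModZero (qintP n * cyclotomic n ℚ ^ 2) (S n)) := by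
  refine ⟨fun _ => ?_, fun h => ?_⟩
  · exact fin_one (Nat.odd_iff.1 hn) (Or.inl rfl) (by norm_num) (S_eq n)
  · exact fin_three (by omega) (Or.inl rfl) (by norm_num) (by omega) (S_eq n)

end Pool.Agent.Results.MP_659547_nt.Full
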